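import Mathlib

section

/-!
A rewriting machine on natural numbers which evaluates `Nat.Partrec.Code`.  The one step relation
`Step` is Diophantine; the equivalence relation generated by it is undecidable.
-/

namespace Pool.Agent.Lib.MP_689b4c_al

open Nat.Partrec (Code)
open Encodable Denumerable

/-- configuration: evaluate code `c` at `v` with continuation `k`. -/
def nrm (c k v : ℕ) : ℕ := Nat.pair 0 (Nat.pair c (Nat.pair k v))
/-- configuration: return value `v` to continuation `k`. -/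
def ret (k v : ℕ) : ℕ := Nat.pair 1 (Nat.pair k v)
/-- halting configuration. -/
def hlt : ℕ := Nat.pair 2 0
/-- push a frame on a continuation. -/
def push (φ k : ℕ) : ℕ := Nat.pair φ k + 1
def F1 (c n : ℕ) : ℕ := Nat.pair 0 (Nat.pair c n)
def F2 (a : ℕ) : ℕ := Nat.pair 1 a
def F3 (c : ℕ) : ℕ := Nat.pair 2 c
def F4 (c a y m : ℕ) : ℕ := Nat.pair 3 (Nat.pair c (Nat.pair a (Nat.pair y m)))
def F5 (c a m : ℕ) : ℕ := Nat.pair 4 (Nat.pair c (Nat.pair a m))

/-- One step of the machine. -/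
inductive Step : ℕ → ℕ → Prop
  | zero (k v : ℕ) : Step (nrm 0 k v) (ret k 0)
  | succ (k v : ℕ) : Step (nrm 1 k v) (ret k (v + 1))
  | left (k a b : ℕ) : Step (nrm 2 k (Nat.pair a b)) (ret k a)
  | right (k a b : ℕ) : Step (nrm 3 k (Nat.pair a b)) (ret k b)
  | pair (cf cg k v : ℕ) :
      Step (nrm (2 * (2 * Nat.pair cf cg) + 4) k v) (nrm cf (push (F1 cg v) k) v)
  | comp (cf cg k v : ℕ) :
      Step (nrm (2 * (2 * Nat.pair cf cg + 1) + 4) k v) (nrm cg (push (F3 cf) k) v)
  | prec (cf cg k a m : ℕ) :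
      Step (nrm ((2 * (2 * Nat.pair cf cg) + 1) + 4) k (Nat.pair a m))
        (nrm cf (push (F4 cg a 0 m) k) a)
  | rfind (cf k a m : ℕ) :
      Step (nrm ((2 * (2 * cf + 1) + 1) + 4) k (Nat.pair a m))
        (nrm cf (push (F5 cf a m) k) (Nat.pair a m))
  | ret0 (v : ℕ) : Step (ret 0 v) hlt
  | ret1 (c n k v : ℕ) : Step (ret (push (F1 c n) k) v) (nrm c (push (F2 v) k) n)
  | ret2 (a k v : ℕ) : Step (ret (push (F2 a) k) v) (ret k (Nat.pair a v))
  | ret3 (c k v : ℕ) : Step (ret (push (F3 c) k) v) (nrm c k v)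
  | ret4z (c a y k v : ℕ) : Step (ret (push (F4 c a y 0) k) v) (ret k v)
  | ret4s (c a y m k v : ℕ) :
      Step (ret (push (F4 c a y (m + 1)) k) v)
        (nrm c (push (F4 c a (y + 1) m) k) (Nat.pair a (Nat.pair y v)))
  | ret5z (c a m k : ℕ) : Step (ret (push (F5 c a m) k) 0) (ret k m)
  | ret5s (c a m k v : ℕ) :
      Step (ret (push (F5 c a m) k) (v + 1)) (nrm c (push (F5 c a (m + 1)) k) (Nat.pair a (m + 1)))

/-! ### Semantics -/

/-- Iterating the recursion step of `prec`, from stage `y`, `m` more times. -/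
def precTail (cg : Code) (a : ℕ) : ℕ → ℕ → ℕ → Part ℕ
  | 0, _, i => Part.some i
  | m + 1, y, i => (cg.eval (Nat.pair a (Nat.pair y i))).bind fun j => precTail cg a m (y + 1) j

theorem mem_eval_prec (cf cg : Code) (a : ℕ) (b : ℕ) (m : ℕ) : ∀ y : ℕ,
    b ∈ (Code.prec cf cg).eval (Nat.pair a (y + m)) ↔
      ∃ i ∈ (Code.prec cf cg).eval (Nat.pair a y), b ∈ precTail cg a m y i := by
  induction m with
  | zero => intro y; simp [precTail]
  | succ m ih =>
    intro y
    have h := ih (y + 1)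
    rw [show y + (m + 1) = y + 1 + m by ring, h]
    simp only [precTail, Part.mem_bind_iff]
    rw [show y + 1 = Nat.succ y from rfl, Nat.Partrec.Code.eval_prec_succ]
    simp only [Part.bind_eq_bind, Part.mem_bind_iff]
    constructor
    · rintro ⟨i, ⟨j, hj, hi⟩, hb⟩
      exact ⟨j, hj, i, hi, hb⟩
    · rintro ⟨j, hj, i, hi, hb⟩
      exact ⟨i, ⟨j, hj, hi⟩, hb⟩

theorem mem_eval_prec' (cf cg : Code) (a : ℕ) (b : ℕ) (m : ℕ) :
    b ∈ (Code.prec cf cg).eval (Nat.pair a m) ↔
      ∃ i ∈ cf.eval a, b ∈ precTail cg a m 0 i := by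
  have := mem_eval_prec cf cg a b m 0
  simpa using this

theorem mem_eval_rfind (cf : Code) (a m b : ℕ) :
    b ∈ (Code.rfind' cf).eval (Nat.pair a m) ↔
      ∃ r ∈ cf.eval (Nat.pair a m),
        (r = 0 ∧ b = m) ∨ (r ≠ 0 ∧ b ∈ (Code.rfind' cf).eval (Nat.pair a (m + 1))) := by
  constructor
  · intro h
    rw [Nat.Partrec.Code.evaln_complete] at h
    obtain ⟨k, hk⟩ := h
    cases k with
    | zero => simp [Nat.Partrec.Code.evaln] at hk
    | succ k =>
      simp only [Nat.Partrec.Code.evaln, Nat.unpaired, Nat.unpair_pair, Option.mem_def,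
        Option.bind_eq_bind, Option.bind_eq_some_iff] at hk
      obtain ⟨_, _, x, hx, h⟩ := hk
      refine ⟨x, Nat.Partrec.Code.evaln_complete.2 ⟨k + 1, hx⟩, ?_⟩
      split_ifs at h with h0
      · left
        refine ⟨h0, ?_⟩
        have : some m = some b := h
        exact (Option.some.inj this).symm
      · right
        exact ⟨h0, Nat.Partrec.Code.evaln_complete.2 ⟨k, h⟩⟩
  · rintro ⟨r, hr, h⟩
    rw [Nat.Partrec.Code.evaln_complete] at hr
    obtain ⟨k, hk⟩ := hr
    rcases h with ⟨h0, rfl⟩ | ⟨h0, h⟩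
    · subst h0
      cases k with
      | zero => simp [Nat.Partrec.Code.evaln] at hk
      | succ k =>
        refine Nat.Partrec.Code.evaln_complete.2 ⟨k + 1, ?_⟩
        have hb := Nat.Partrec.Code.evaln_bound hk
        simp only [Nat.Partrec.Code.evaln, Nat.unpaired, Nat.unpair_pair, Option.mem_def,
          Option.bind_eq_bind, Option.bind_eq_some_iff]
        refine ⟨(), ?_, 0, hk, ?_⟩
        · simp [guard, Nat.lt_succ_iff.1 hb]
        · simp
    · rw [Nat.Partrec.Code.evaln_complete] at h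
      obtain ⟨k', hk'⟩ := h
      refine Nat.Partrec.Code.evaln_complete.2 ⟨max k k' + 1, ?_⟩
      have hk1 : r ∈ Nat.Partrec.Code.evaln (max k k' + 1) cf (Nat.pair a m) :=
        Nat.Partrec.Code.evaln_mono (by omega) hk
      have hk2 : b ∈ Nat.Partrec.Code.evaln (max k k') (Code.rfind' cf) (Nat.pair a (m + 1)) :=
        Nat.Partrec.Code.evaln_mono (by omega) hk'
      have hb := Nat.Partrec.Code.evaln_bound hk1
      simp only [Nat.Partrec.Code.evaln, Nat.unpaired, Nat.unpair_pair, Option.mem_def,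
        Option.bind_eq_bind, Option.bind_eq_some_iff]
      refine ⟨(), ?_, r, hk1, ?_⟩
      · simp [guard, Nat.lt_succ_iff.1 hb]
      · rw [if_neg h0]; exact hk2

theorem exists_mem_eval_rfind (cf : Code) (a m : ℕ) (P : ℕ → Prop) :
    (∃ b ∈ (Code.rfind' cf).eval (Nat.pair a m), P b) ↔
      ∃ r ∈ cf.eval (Nat.pair a m),
        (r = 0 ∧ P m) ∨ (r ≠ 0 ∧ ∃ b ∈ (Code.rfind' cf).eval (Nat.pair a (m + 1)), P b) := by
  constructor
  · rintro ⟨b, hb, hP⟩
    obtain ⟨r, hr, h⟩ := (mem_eval_rfind cf a m b).1 hb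
    refine ⟨r, hr, ?_⟩
    rcases h with ⟨h0, rfl⟩ | ⟨h0, h⟩
    · exact Or.inl ⟨h0, hP⟩
    · exact Or.inr ⟨h0, b, h, hP⟩
  · rintro ⟨r, hr, h⟩
    rcases h with ⟨h0, hP⟩ | ⟨h0, b, hb, hP⟩
    · exact ⟨m, (mem_eval_rfind cf a m m).2 ⟨r, hr, Or.inl ⟨h0, rfl⟩⟩, hP⟩
    · exact ⟨b, (mem_eval_rfind cf a m b).2 ⟨r, hr, Or.inr ⟨h0, hb⟩⟩, hP⟩

/-- The continuation `k` terminates when given the value `v`. -/
def contGood : List ℕ → ℕ → Prop
  | [], _ => True
  | φ :: k, v =>
    (φ.unpair.1 = 0 ∧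
      ∃ b ∈ (ofNat Code φ.unpair.2.unpair.1).eval φ.unpair.2.unpair.2, contGood k (Nat.pair v b)) ∨
    (φ.unpair.1 = 1 ∧ contGood k (Nat.pair φ.unpair.2 v)) ∨
    (φ.unpair.1 = 2 ∧ ∃ b ∈ (ofNat Code φ.unpair.2).eval v, contGood k b) ∨
    (φ.unpair.1 = 3 ∧
      ∃ b ∈ precTail (ofNat Code φ.unpair.2.unpair.1) φ.unpair.2.unpair.2.unpair.1
        φ.unpair.2.unpair.2.unpair.2.unpair.2 φ.unpair.2.unpair.2.unpair.2.unpair.1 v,
        contGood k b) ∨
    (φ.unpair.1 = 4 ∧
      ((v = 0 ∧ contGood k φ.unpair.2.unpair.2.unpair.2) ∨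
       (v ≠ 0 ∧ ∃ b ∈ (Code.rfind' (ofNat Code φ.unpair.2.unpair.1)).eval
          (Nat.pair φ.unpair.2.unpair.2.unpair.1 (φ.unpair.2.unpair.2.unpair.2 + 1)),
          contGood k b)))

/-- The configuration `x` terminates. -/
def Good (x : ℕ) : Prop :=
  (x.unpair.1 = 0 ∧ ∃ r ∈ (ofNat Code x.unpair.2.unpair.1).eval x.unpair.2.unpair.2.unpair.2,
      contGood (ofNat (List ℕ) x.unpair.2.unpair.2.unpair.1) r) ∨
  (x.unpair.1 = 1 ∧ contGood (ofNat (List ℕ) x.unpair.2.unpair.1) x.unpair.2.unpair.2) ∨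
  x.unpair.1 = 2

@[simp] theorem good_nrm (c k v : ℕ) :
    Good (nrm c k v) ↔ ∃ r ∈ (ofNat Code c).eval v, contGood (ofNat (List ℕ) k) r := by
  simp [Good, nrm]

@[simp] theorem good_ret (k v : ℕ) :
    Good (ret k v) ↔ contGood (ofNat (List ℕ) k) v := by
  simp [Good, ret]

@[simp] theorem good_hlt : Good hlt := by
  simp [Good, hlt]

@[simp] theorem ofNat_push (φ k : ℕ) :
    ofNat (List ℕ) (push φ k) = φ :: ofNat (List ℕ) k := by
  rw [push, ← Nat.succ_eq_add_one, Denumerable.list_ofNat_succ]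
  simp

theorem ofNat_code_zero : ofNat Code 0 = Code.zero := by
  rw [Nat.Partrec.Code.ofNatCode_eq]; simp [Nat.Partrec.Code.ofNatCode]

theorem ofNat_code_succ : ofNat Code 1 = Code.succ := by
  rw [Nat.Partrec.Code.ofNatCode_eq]; simp [Nat.Partrec.Code.ofNatCode]

theorem ofNat_code_left : ofNat Code 2 = Code.left := by
  rw [Nat.Partrec.Code.ofNatCode_eq]; simp [Nat.Partrec.Code.ofNatCode]

theorem ofNat_code_right : ofNat Code 3 = Code.right := by
  rw [Nat.Partrec.Code.ofNatCode_eq]; simp [Nat.Partrec.Code.ofNatCode]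

theorem ofNat_code_pair (cf cg : ℕ) : ofNat Code (2 * (2 * Nat.pair cf cg) + 4) =
    Code.pair (ofNat Code cf) (ofNat Code cg) := by
  rw [← Denumerable.ofNat_encode (Code.pair (ofNat Code cf) (ofNat Code cg))]
  congr 1
  have h1 : (ofNat Code cf).encodeCode = cf := by
    rw [← Nat.Partrec.Code.encodeCode_eq]; exact Denumerable.encode_ofNat cf
  have h2 : (ofNat Code cg).encodeCode = cg := by
    rw [← Nat.Partrec.Code.encodeCode_eq]; exact Denumerable.encode_ofNat cg
  rw [Nat.Partrec.Code.encodeCode_eq, Nat.Partrec.Code.encodeCode, h1, h2]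

theorem ofNat_code_comp (cf cg : ℕ) : ofNat Code (2 * (2 * Nat.pair cf cg + 1) + 4) =
    Code.comp (ofNat Code cf) (ofNat Code cg) := by
  rw [← Denumerable.ofNat_encode (Code.comp (ofNat Code cf) (ofNat Code cg))]
  congr 1
  have h1 : (ofNat Code cf).encodeCode = cf := by
    rw [← Nat.Partrec.Code.encodeCode_eq]; exact Denumerable.encode_ofNat cf
  have h2 : (ofNat Code cg).encodeCode = cg := by
    rw [← Nat.Partrec.Code.encodeCode_eq]; exact Denumerable.encode_ofNat cg
  rw [Nat.Partrec.Code.encodeCode_eq, Nat.Partrec.Code.encodeCode, h1, h2]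

theorem ofNat_code_prec (cf cg : ℕ) : ofNat Code ((2 * (2 * Nat.pair cf cg) + 1) + 4) =
    Code.prec (ofNat Code cf) (ofNat Code cg) := by
  rw [← Denumerable.ofNat_encode (Code.prec (ofNat Code cf) (ofNat Code cg))]
  congr 1
  have h1 : (ofNat Code cf).encodeCode = cf := by
    rw [← Nat.Partrec.Code.encodeCode_eq]; exact Denumerable.encode_ofNat cf
  have h2 : (ofNat Code cg).encodeCode = cg := by
    rw [← Nat.Partrec.Code.encodeCode_eq]; exact Denumerable.encode_ofNat cg
  rw [Nat.Partrec.Code.encodeCode_eq, Nat.Partrec.Code.encodeCode, h1, h2]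

theorem ofNat_code_rfind (cf : ℕ) : ofNat Code ((2 * (2 * cf + 1) + 1) + 4) =
    Code.rfind' (ofNat Code cf) := by
  rw [← Denumerable.ofNat_encode (Code.rfind' (ofNat Code cf))]
  congr 1
  have h1 : (ofNat Code cf).encodeCode = cf := by
    rw [← Nat.Partrec.Code.encodeCode_eq]; exact Denumerable.encode_ofNat cf
  rw [Nat.Partrec.Code.encodeCode_eq, Nat.Partrec.Code.encodeCode, h1]

/-- `Good` is invariant under `Step` (in both directions). -/
theorem Step.good_iff {x y : ℕ} (h : Step x y) : Good x ↔ Good y := by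
  cases h with
  | zero k v =>
    rw [good_nrm, good_ret, ofNat_code_zero]
    simp [Nat.Partrec.Code.eval, pure, PFun.pure]
  | succ k v =>
    rw [good_nrm, good_ret, ofNat_code_succ]
    simp [Nat.Partrec.Code.eval]
  | left k a b =>
    rw [good_nrm, good_ret, ofNat_code_left]
    simp [Nat.Partrec.Code.eval]
  | right k a b =>
    rw [good_nrm, good_ret, ofNat_code_right]
    simp [Nat.Partrec.Code.eval]
  | pair cf cg k v =>
    rw [good_nrm, good_nrm, ofNat_code_pair]
    simp only [ofNat_push, contGood, F1, Nat.unpair_pair, Nat.Partrec.Code.eval, Seq.seq]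
    simp
  | comp cf cg k v =>
    rw [good_nrm, good_nrm, ofNat_code_comp]
    simp only [ofNat_push, contGood, F3, Nat.unpair_pair, Nat.Partrec.Code.eval,
      Part.bind_eq_bind, Part.mem_bind_iff]
    simp
    constructor
    · rintro ⟨r, ⟨a, ha, hr⟩, h⟩
      exact ⟨a, ha, r, hr, h⟩
    · rintro ⟨a, ha, r, hr, h⟩
      exact ⟨r, ⟨a, ha, hr⟩, h⟩
  | prec cf cg k a m =>
    rw [good_nrm, good_nrm, ofNat_code_prec]
    simp only [ofNat_push, contGood, F4, Nat.unpair_pair, mem_eval_prec']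
    simp
    tauto
  | rfind cf k a m =>
    rw [good_nrm, good_nrm, ofNat_code_rfind]
    simp only [ofNat_push, contGood, F5, Nat.unpair_pair]
    rw [exists_mem_eval_rfind]
    simp
  | ret0 v => simp [contGood]
  | ret1 c n k v =>
    simp [ofNat_push, contGood, F1, F2]
  | ret2 a k v => simp [ofNat_push, contGood, F2]
  | ret3 c k v => simp [ofNat_push, contGood, F3]
  | ret4z c a y k v => simp [ofNat_push, contGood, F4, precTail]
  | ret4s c a y m k v => 
    simp [ofNat_push, contGood, F4, precTail]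
    constructor
    · rintro ⟨b, ⟨r, hr, hb⟩, h⟩
      exact ⟨r, hr, b, hb, h⟩
    · rintro ⟨r, hr, b, hb, h⟩
      exact ⟨b, ⟨r, hr, hb⟩, h⟩
  | ret5z c a m k => simp [ofNat_push, contGood, F5]
  | ret5s c a m k v => 
    simp only [good_ret, good_nrm, ofNat_push, contGood, F5, Nat.unpair_pair]
    rw [exists_mem_eval_rfind]
    simp

/-- The equivalence relation generated by `Step`. -/
def Conn : ℕ → ℕ → Prop := Relation.EqvGen Step

theorem Conn.good_iff {x y : ℕ} (h : Conn x y) : Good x ↔ Good y := by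
  induction h with
  | rel x y h => exact h.good_iff
  | refl x => exact Iff.rfl
  | symm x y _ ih => exact ih.symm
  | trans x y z _ _ ih1 ih2 => exact ih1.trans ih2

theorem Conn.of_step {x y : ℕ} (h : Step x y) : Conn x y := Relation.EqvGen.rel _ _ h

theorem Conn.trans {x y z : ℕ} (h : Conn x y) (h' : Conn y z) : Conn x z :=
  Relation.EqvGen.trans _ _ _ h h'

theorem conn_prec {cf cg : Code}
    (ihf : ∀ n x, x ∈ cf.eval n → ∀ K, Conn (nrm (encode cf) K n) (ret K x))
    (ihg : ∀ n x, x ∈ cg.eval n → ∀ K, Conn (nrm (encode cg) K n) (ret K x)) (a K : ℕ) (y : ℕ) :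
    ∀ (l i : ℕ), i ∈ (Code.prec cf cg).eval (Nat.pair a y) →
      Conn (nrm (encode cf) (push (F4 (encode cg) a 0 (y + l)) K) a)
        (ret (push (F4 (encode cg) a y l) K) i) := by
  induction y with
  | zero =>
    intro l i hi
    rw [Nat.Partrec.Code.eval_prec_zero] at hi
    have := ihf a i hi (push (F4 (encode cg) a 0 l) K)
    simpa using this
  | succ y ih =>
    intro l i' hi'
    rw [Nat.Partrec.Code.eval_prec_succ] at hi'
    simp only [Part.bind_eq_bind, Part.mem_bind_iff] at hi'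
    obtain ⟨i, hi, hi'⟩ := hi'
    have h1 := ih (l + 1) i hi
    rw [show y + (l + 1) = y + 1 + l by ring] at h1
    refine h1.trans ((Conn.of_step (Step.ret4s _ _ _ _ _ _)).trans ?_)
    exact ihg _ _ hi' _

theorem conn_rfind {cf : Code}
    (ihf : ∀ n x, x ∈ cf.eval n → ∀ K, Conn (nrm (encode cf) K n) (ret K x)) (a K : ℕ) (k : ℕ) :
    ∀ (m x : ℕ), x ∈ Nat.Partrec.Code.evaln k (Code.rfind' cf) (Nat.pair a m) →
      Conn (nrm (encode cf) (push (F5 (encode cf) a m) K) (Nat.pair a m)) (ret K x) := by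
  induction k with
  | zero => intro m x hx; simp [Nat.Partrec.Code.evaln] at hx
  | succ k ih =>
    intro m x hx
    simp only [Nat.Partrec.Code.evaln, Nat.unpaired, Nat.unpair_pair, Option.mem_def,
      Option.bind_eq_bind, Option.bind_eq_some_iff] at hx
    obtain ⟨_, _, r, hr, h⟩ := hx
    have hr' : r ∈ cf.eval (Nat.pair a m) := Nat.Partrec.Code.evaln_complete.2 ⟨k + 1, hr⟩
    refine (ihf _ _ hr' _).trans ?_
    split_ifs at h with h0
    · have h' : some m = some x := h
      obtain rfl := Option.some.inj h'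
      subst h0
      exact Conn.of_step (Step.ret5z _ _ _ _)
    · obtain ⟨r', rfl⟩ := Nat.exists_eq_succ_of_ne_zero h0
      exact (Conn.of_step (Step.ret5s _ _ _ _ _)).trans (ih _ _ h)

theorem conn_eval (c : Code) : ∀ n x, x ∈ c.eval n → ∀ K, Conn (nrm (encode c) K n) (ret K x) := by
  induction c with
  | zero =>
    intro n x hx K
    have hx : x = 0 := by simpa [Nat.Partrec.Code.eval, pure, PFun.pure] using hx
    subst hx
    exact Conn.of_step (Step.zero K n)
  | succ =>
    intro n x hx K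
    have hx : x = n + 1 := by simpa [Nat.Partrec.Code.eval] using hx
    subst hx
    exact Conn.of_step (Step.succ K n)
  | left =>
    intro n x hx K
    have hx : x = n.unpair.1 := by simpa [Nat.Partrec.Code.eval] using hx
    subst hx
    have := Step.left K n.unpair.1 n.unpair.2
    rw [Nat.pair_unpair] at this
    exact Conn.of_step this
  | right =>
    intro n x hx K
    have hx : x = n.unpair.2 := by simpa [Nat.Partrec.Code.eval] using hx
    subst hx
    have := Step.right K n.unpair.1 n.unpair.2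
    rw [Nat.pair_unpair] at this
    exact Conn.of_step this
  | pair cf cg ihf ihg =>
    intro n x hx K
    have hx : ∃ a ∈ cf.eval n, ∃ b ∈ cg.eval n, Nat.pair a b = x := by
      simpa [Nat.Partrec.Code.eval, Seq.seq] using hx
    obtain ⟨a, ha, b, hb, rfl⟩ := hx
    refine (Conn.of_step (Step.pair (encode cf) (encode cg) K n)).trans ?_
    refine (ihf n a ha _).trans ?_
    refine (Conn.of_step (Step.ret1 _ _ _ _)).trans ?_
    refine (ihg n b hb _).trans ?_
    exact Conn.of_step (Step.ret2 _ _ _)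
  | comp cf cg ihf ihg =>
    intro n x hx K
    simp only [Nat.Partrec.Code.eval, Part.bind_eq_bind, Part.mem_bind_iff] at hx
    obtain ⟨a, ha, hx⟩ := hx
    refine (Conn.of_step (Step.comp (encode cf) (encode cg) K n)).trans ?_
    refine (ihg n a ha _).trans ?_
    refine (Conn.of_step (Step.ret3 _ _ _)).trans ?_
    exact ihf a x hx K
  | prec cf cg ihf ihg =>
    intro n x hx K
    have h1 := Step.prec (encode cf) (encode cg) K n.unpair.1 n.unpair.2
    rw [Nat.pair_unpair] at h1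
    refine (Conn.of_step h1).trans ?_
    rw [← Nat.pair_unpair n] at hx
    have h2 := conn_prec ihf ihg n.unpair.1 K n.unpair.2 0 x hx
    rw [add_zero] at h2
    exact h2.trans (Conn.of_step (Step.ret4z _ _ _ _ _))
  | rfind' cf ihf =>
    intro n x hx K
    have h1 := Step.rfind (encode cf) K n.unpair.1 n.unpair.2
    rw [Nat.pair_unpair] at h1
    refine (Conn.of_step h1).trans ?_
    rw [Nat.Partrec.Code.evaln_complete] at hx
    obtain ⟨k, hk⟩ := hx
    rw [← Nat.pair_unpair n] at hk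
    have h2 := conn_rfind ihf n.unpair.1 K k _ _ hk
    rw [Nat.pair_unpair] at h2
    exact h2

/-- Starting configuration for the code `c` on input `n`. -/
def start (c : Code) (n : ℕ) : ℕ := nrm (encode c) 0 n

theorem conn_start_iff (c : Code) (n : ℕ) : Conn (start c n) hlt ↔ (c.eval n).Dom := by
  constructor
  · intro h
    have := h.good_iff.2 good_hlt
    rw [start, good_nrm, Denumerable.ofNat_encode] at this
    obtain ⟨r, hr, _⟩ := this
    exact Part.dom_iff_mem.2 ⟨r, hr⟩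
  · intro h
    obtain ⟨r, hr⟩ := Part.dom_iff_mem.1 h
    exact (conn_eval c n r hr 0).trans (Conn.of_step (Step.ret0 r))

end Pool.Agent.Lib.MP_689b4c_al
end

section

section

/-!
The one step relation of the machine is Diophantine.
-/

namespace Pool.Agent.Lib.MP_689b4c_al

open Dioph Fin2 Vector3

section
variable {α : Type} {f g h i : (α → ℕ) → ℕ}

theorem pair_dioph (df : DiophFn f) (dg : DiophFn g) : DiophFn fun v => Nat.pair (f v) (g v) :=
  diophFn_comp2 df dg <|
    (diophFn_vec _).2 <|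
      ext ((D&1 D< D&2 D∧ D&0 D= D&2 D* D&2 D+ D&1) D∨
          (D&2 D≤ D&1 D∧ D&0 D= D&1 D* D&1 D+ D&1 D+ D&2)) <|
        (vectorAll_iff_forall _).1 fun x y z ↦
          show ((y < z ∧ x = z * z + y) ∨ (z ≤ y ∧ x = y * y + y + z)) ↔ Nat.pair y z = x by
            unfold Nat.pair
            split_ifs with hyz <;> constructor <;> intro hh <;> omega

theorem nrm_dioph (df : DiophFn f) (dg : DiophFn g) (dh : DiophFn h) :
    DiophFn fun v => nrm (f v) (g v) (h v) :=
  pair_dioph (const_dioph 0) (pair_dioph df (pair_dioph dg dh))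

theorem ret_dioph (df : DiophFn f) (dg : DiophFn g) :
    DiophFn fun v => ret (f v) (g v) :=
  pair_dioph (const_dioph 1) (pair_dioph df dg)

theorem push_dioph (df : DiophFn f) (dg : DiophFn g) :
    DiophFn fun v => push (f v) (g v) :=
  add_dioph (pair_dioph df dg) (const_dioph 1)

theorem F1_dioph (df : DiophFn f) (dg : DiophFn g) :
    DiophFn fun v => F1 (f v) (g v) :=
  pair_dioph (const_dioph 0) (pair_dioph df dg)

theorem F2_dioph (df : DiophFn f) :
    DiophFn fun v => F2 (f v) :=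
  pair_dioph (const_dioph 1) df

theorem F3_dioph (df : DiophFn f) :
    DiophFn fun v => F3 (f v) :=
  pair_dioph (const_dioph 2) df

theorem F4_dioph (df : DiophFn f) (dg : DiophFn g) (dh : DiophFn h) (di : DiophFn i) :
    DiophFn fun v => F4 (f v) (g v) (h v) (i v) :=
  pair_dioph (const_dioph 3) (pair_dioph df (pair_dioph dg (pair_dioph dh di)))

theorem F5_dioph (df : DiophFn f) (dg : DiophFn g) (dh : DiophFn h) :
    DiophFn fun v => F5 (f v) (g v) (h v) :=
  pair_dioph (const_dioph 4) (pair_dioph df (pair_dioph dg dh))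

end

theorem dioph_rule {n : ℕ} {T T' : (Fin2 n → ℕ) → ℕ} (hT : DiophFn T) (hT' : DiophFn T') :
    Dioph {v : Vector3 ℕ 2 | ∃ u : Fin2 n → ℕ, v &0 = T u ∧ v &1 = T' u} := by
  have h1 : Dioph {w : Fin2 2 ⊕ Fin2 n → ℕ |
      w (Sum.inl &0) = T (w ∘ Sum.inr) ∧ w (Sum.inl &1) = T' (w ∘ Sum.inr)} :=
    inter (eq_dioph (proj_dioph _) (reindex_diophFn Sum.inr hT))
      (eq_dioph (proj_dioph _) (reindex_diophFn Sum.inr hT'))
  exact ex_dioph h1

theorem dioph_zero : Dioph {v : Vector3 ℕ 2 | ∃ u : Fin2 2 → ℕ,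
    v &0 = nrm 0 (u &0) (u &1) ∧
    v &1 = ret (u &0) 0} :=
  dioph_rule
    (nrm_dioph (const_dioph 0) (proj_dioph_of_nat 0) (proj_dioph_of_nat 1))
    (ret_dioph (proj_dioph_of_nat 0) (const_dioph 0))

theorem dioph_succ : Dioph {v : Vector3 ℕ 2 | ∃ u : Fin2 2 → ℕ,
    v &0 = nrm 1 (u &0) (u &1) ∧
    v &1 = ret (u &0) ((u &1) + 1)} :=
  dioph_rule
    (nrm_dioph (const_dioph 1) (proj_dioph_of_nat 0) (proj_dioph_of_nat 1))
    (ret_dioph (proj_dioph_of_nat 0) (add_dioph (proj_dioph_of_nat 1) (const_dioph 1)))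

theorem dioph_left : Dioph {v : Vector3 ℕ 2 | ∃ u : Fin2 3 → ℕ,
    v &0 = nrm 2 (u &0) (Nat.pair (u &1) (u &2)) ∧
    v &1 = ret (u &0) (u &1)} :=
  dioph_rule
    (nrm_dioph (const_dioph 2) (proj_dioph_of_nat 0) (pair_dioph (proj_dioph_of_nat 1) (proj_dioph_of_nat 2)))
    (ret_dioph (proj_dioph_of_nat 0) (proj_dioph_of_nat 1))

theorem dioph_right : Dioph {v : Vector3 ℕ 2 | ∃ u : Fin2 3 → ℕ,
    v &0 = nrm 3 (u &0) (Nat.pair (u &1) (u &2)) ∧
    v &1 = ret (u &0) (u &2)} :=
  dioph_rule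
    (nrm_dioph (const_dioph 3) (proj_dioph_of_nat 0) (pair_dioph (proj_dioph_of_nat 1) (proj_dioph_of_nat 2)))
    (ret_dioph (proj_dioph_of_nat 0) (proj_dioph_of_nat 2))

theorem dioph_pair : Dioph {v : Vector3 ℕ 2 | ∃ u : Fin2 4 → ℕ,
    v &0 = nrm (2 * (2 * Nat.pair (u &0) (u &1)) + 4) (u &2) (u &3) ∧
    v &1 = nrm (u &0) (push (F1 (u &1) (u &3)) (u &2)) (u &3)} :=
  dioph_rule
    (nrm_dioph (add_dioph (mul_dioph (const_dioph 2) (mul_dioph (const_dioph 2) (pair_dioph (proj_dioph_of_nat 0) (proj_dioph_of_nat 1)))) (const_dioph 4)) (proj_dioph_of_nat 2) (proj_dioph_of_nat 3))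
    (nrm_dioph (proj_dioph_of_nat 0) (push_dioph (F1_dioph (proj_dioph_of_nat 1) (proj_dioph_of_nat 3)) (proj_dioph_of_nat 2)) (proj_dioph_of_nat 3))

theorem dioph_comp : Dioph {v : Vector3 ℕ 2 | ∃ u : Fin2 4 → ℕ,
    v &0 = nrm (2 * (2 * Nat.pair (u &0) (u &1) + 1) + 4) (u &2) (u &3) ∧
    v &1 = nrm (u &1) (push (F3 (u &0)) (u &2)) (u &3)} :=
  dioph_rule
    (nrm_dioph (add_dioph (mul_dioph (const_dioph 2) (add_dioph (mul_dioph (const_dioph 2) (pair_dioph (proj_dioph_of_nat 0) (proj_dioph_of_nat 1))) (const_dioph 1))) (const_dioph 4)) (proj_dioph_of_nat 2) (proj_dioph_of_nat 3))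
    (nrm_dioph (proj_dioph_of_nat 1) (push_dioph (F3_dioph (proj_dioph_of_nat 0)) (proj_dioph_of_nat 2)) (proj_dioph_of_nat 3))

theorem dioph_prec : Dioph {v : Vector3 ℕ 2 | ∃ u : Fin2 5 → ℕ,
    v &0 = nrm ((2 * (2 * Nat.pair (u &0) (u &1)) + 1) + 4) (u &2) (Nat.pair (u &3) (u &4)) ∧
    v &1 = nrm (u &0) (push (F4 (u &1) (u &3) 0 (u &4)) (u &2)) (u &3)} :=
  dioph_rule
    (nrm_dioph (add_dioph (add_dioph (mul_dioph (const_dioph 2) (mul_dioph (const_dioph 2) (pair_dioph (proj_dioph_of_nat 0) (proj_dioph_of_nat 1)))) (const_dioph 1)) (const_dioph 4)) (proj_dioph_of_nat 2) (pair_dioph (proj_dioph_of_nat 3) (proj_dioph_of_nat 4)))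
    (nrm_dioph (proj_dioph_of_nat 0) (push_dioph (F4_dioph (proj_dioph_of_nat 1) (proj_dioph_of_nat 3) (const_dioph 0) (proj_dioph_of_nat 4)) (proj_dioph_of_nat 2)) (proj_dioph_of_nat 3))

theorem dioph_rfind : Dioph {v : Vector3 ℕ 2 | ∃ u : Fin2 4 → ℕ,
    v &0 = nrm ((2 * (2 * (u &0) + 1) + 1) + 4) (u &1) (Nat.pair (u &2) (u &3)) ∧
    v &1 = nrm (u &0) (push (F5 (u &0) (u &2) (u &3)) (u &1)) (Nat.pair (u &2) (u &3))} :=
  dioph_rule
    (nrm_dioph (add_dioph (add_dioph (mul_dioph (const_dioph 2) (add_dioph (mul_dioph (const_dioph 2) (proj_dioph_of_nat 0)) (const_dioph 1))) (const_dioph 1)) (const_dioph 4)) (proj_dioph_of_nat 1) (pair_dioph (proj_dioph_of_nat 2) (proj_dioph_of_nat 3)))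
    (nrm_dioph (proj_dioph_of_nat 0) (push_dioph (F5_dioph (proj_dioph_of_nat 0) (proj_dioph_of_nat 2) (proj_dioph_of_nat 3)) (proj_dioph_of_nat 1)) (pair_dioph (proj_dioph_of_nat 2) (proj_dioph_of_nat 3)))

theorem dioph_ret0 : Dioph {v : Vector3 ℕ 2 | ∃ u : Fin2 1 → ℕ,
    v &0 = ret 0 (u &0) ∧
    v &1 = hlt} :=
  dioph_rule
    (ret_dioph (const_dioph 0) (proj_dioph_of_nat 0))
    (const_dioph hlt)

theorem dioph_ret1 : Dioph {v : Vector3 ℕ 2 | ∃ u : Fin2 4 → ℕ,
    v &0 = ret (push (F1 (u &0) (u &1)) (u &2)) (u &3) ∧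
    v &1 = nrm (u &0) (push (F2 (u &3)) (u &2)) (u &1)} :=
  dioph_rule
    (ret_dioph (push_dioph (F1_dioph (proj_dioph_of_nat 0) (proj_dioph_of_nat 1)) (proj_dioph_of_nat 2)) (proj_dioph_of_nat 3))
    (nrm_dioph (proj_dioph_of_nat 0) (push_dioph (F2_dioph (proj_dioph_of_nat 3)) (proj_dioph_of_nat 2)) (proj_dioph_of_nat 1))

theorem dioph_ret2 : Dioph {v : Vector3 ℕ 2 | ∃ u : Fin2 3 → ℕ,
    v &0 = ret (push (F2 (u &0)) (u &1)) (u &2) ∧
    v &1 = ret (u &1) (Nat.pair (u &0) (u &2))} :=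
  dioph_rule
    (ret_dioph (push_dioph (F2_dioph (proj_dioph_of_nat 0)) (proj_dioph_of_nat 1)) (proj_dioph_of_nat 2))
    (ret_dioph (proj_dioph_of_nat 1) (pair_dioph (proj_dioph_of_nat 0) (proj_dioph_of_nat 2)))

theorem dioph_ret3 : Dioph {v : Vector3 ℕ 2 | ∃ u : Fin2 3 → ℕ,
    v &0 = ret (push (F3 (u &0)) (u &1)) (u &2) ∧
    v &1 = nrm (u &0) (u &1) (u &2)} :=
  dioph_rule
    (ret_dioph (push_dioph (F3_dioph (proj_dioph_of_nat 0)) (proj_dioph_of_nat 1)) (proj_dioph_of_nat 2))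
    (nrm_dioph (proj_dioph_of_nat 0) (proj_dioph_of_nat 1) (proj_dioph_of_nat 2))

theorem dioph_ret4z : Dioph {v : Vector3 ℕ 2 | ∃ u : Fin2 5 → ℕ,
    v &0 = ret (push (F4 (u &0) (u &1) (u &2) 0) (u &3)) (u &4) ∧
    v &1 = ret (u &3) (u &4)} :=
  dioph_rule
    (ret_dioph (push_dioph (F4_dioph (proj_dioph_of_nat 0) (proj_dioph_of_nat 1) (proj_dioph_of_nat 2) (const_dioph 0)) (proj_dioph_of_nat 3)) (proj_dioph_of_nat 4))
    (ret_dioph (proj_dioph_of_nat 3) (proj_dioph_of_nat 4))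

theorem dioph_ret4s : Dioph {v : Vector3 ℕ 2 | ∃ u : Fin2 6 → ℕ,
    v &0 = ret (push (F4 (u &0) (u &1) (u &2) ((u &3) + 1)) (u &4)) (u &5) ∧
    v &1 = nrm (u &0) (push (F4 (u &0) (u &1) ((u &2) + 1) (u &3)) (u &4)) (Nat.pair (u &1) (Nat.pair (u &2) (u &5)))} :=
  dioph_rule
    (ret_dioph (push_dioph (F4_dioph (proj_dioph_of_nat 0) (proj_dioph_of_nat 1) (proj_dioph_of_nat 2) (add_dioph (proj_dioph_of_nat 3) (const_dioph 1))) (proj_dioph_of_nat 4)) (proj_dioph_of_nat 5))
    (nrm_dioph (proj_dioph_of_nat 0) (push_dioph (F4_dioph (proj_dioph_of_nat 0) (proj_dioph_of_nat 1) (add_dioph (proj_dioph_of_nat 2) (const_dioph 1)) (proj_dioph_of_nat 3)) (proj_dioph_of_nat 4)) (pair_dioph (proj_dioph_of_nat 1) (pair_dioph (proj_dioph_of_nat 2) (proj_dioph_of_nat 5))))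

theorem dioph_ret5z : Dioph {v : Vector3 ℕ 2 | ∃ u : Fin2 4 → ℕ,
    v &0 = ret (push (F5 (u &0) (u &1) (u &2)) (u &3)) 0 ∧
    v &1 = ret (u &3) (u &2)} :=
  dioph_rule
    (ret_dioph (push_dioph (F5_dioph (proj_dioph_of_nat 0) (proj_dioph_of_nat 1) (proj_dioph_of_nat 2)) (proj_dioph_of_nat 3)) (const_dioph 0))
    (ret_dioph (proj_dioph_of_nat 3) (proj_dioph_of_nat 2))

theorem dioph_ret5s : Dioph {v : Vector3 ℕ 2 | ∃ u : Fin2 5 → ℕ,
    v &0 = ret (push (F5 (u &0) (u &1) (u &2)) (u &3)) ((u &4) + 1) ∧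
    v &1 = nrm (u &0) (push (F5 (u &0) (u &1) ((u &2) + 1)) (u &3)) (Nat.pair (u &1) ((u &2) + 1))} :=
  dioph_rule
    (ret_dioph (push_dioph (F5_dioph (proj_dioph_of_nat 0) (proj_dioph_of_nat 1) (proj_dioph_of_nat 2)) (proj_dioph_of_nat 3)) (add_dioph (proj_dioph_of_nat 4) (const_dioph 1)))
    (nrm_dioph (proj_dioph_of_nat 0) (push_dioph (F5_dioph (proj_dioph_of_nat 0) (proj_dioph_of_nat 1) (add_dioph (proj_dioph_of_nat 2) (const_dioph 1))) (proj_dioph_of_nat 3)) (pair_dioph (proj_dioph_of_nat 1) (add_dioph (proj_dioph_of_nat 2) (const_dioph 1))))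

theorem step_dioph : Dioph {v : Vector3 ℕ 2 | Step (v &0) (v &1)} := by
  refine ext (union dioph_zero
    (union dioph_succ
    (union dioph_left
    (union dioph_right
    (union dioph_pair
    (union dioph_comp
    (union dioph_prec
    (union dioph_rfind
    (union dioph_ret0
    (union dioph_ret1
    (union dioph_ret2
    (union dioph_ret3
    (union dioph_ret4z
    (union dioph_ret4s
    (union dioph_ret5z
    dioph_ret5s))))))))))))))) ?_
  intro v
  constructor
  · rintro (⟨u, h0, h1⟩ | ⟨u, h0, h1⟩ | ⟨u, h0, h1⟩ | ⟨u, h0, h1⟩ | ⟨u, h0, h1⟩ | ⟨u, h0, h1⟩ | ⟨u, h0, h1⟩ | ⟨u, h0, h1⟩ | ⟨u, h0, h1⟩ | ⟨u, h0, h1⟩ | ⟨u, h0, h1⟩ | ⟨u, h0, h1⟩ | ⟨u, h0, h1⟩ | ⟨u, h0, h1⟩ | ⟨u, h0, h1⟩ | ⟨u, h0, h1⟩)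
    · show Step (v &0) (v &1); rw [h0, h1]; exact Step.zero _ _
    · show Step (v &0) (v &1); rw [h0, h1]; exact Step.succ _ _
    · show Step (v &0) (v &1); rw [h0, h1]; exact Step.left _ _ _
    · show Step (v &0) (v &1); rw [h0, h1]; exact Step.right _ _ _
    · show Step (v &0) (v &1); rw [h0, h1]; exact Step.pair _ _ _ _
    · show Step (v &0) (v &1); rw [h0, h1]; exact Step.comp _ _ _ _
    · show Step (v &0) (v &1); rw [h0, h1]; exact Step.prec _ _ _ _ _
    · show Step (v &0) (v &1); rw [h0, h1]; exact Step.rfind _ _ _ _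
    · show Step (v &0) (v &1); rw [h0, h1]; exact Step.ret0 _
    · show Step (v &0) (v &1); rw [h0, h1]; exact Step.ret1 _ _ _ _
    · show Step (v &0) (v &1); rw [h0, h1]; exact Step.ret2 _ _ _
    · show Step (v &0) (v &1); rw [h0, h1]; exact Step.ret3 _ _ _
    · show Step (v &0) (v &1); rw [h0, h1]; exact Step.ret4z _ _ _ _ _
    · show Step (v &0) (v &1); rw [h0, h1]; exact Step.ret4s _ _ _ _ _ _
    · show Step (v &0) (v &1); rw [h0, h1]; exact Step.ret5z _ _ _ _
    · show Step (v &0) (v &1); rw [h0, h1]; exact Step.ret5s _ _ _ _ _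
  · intro h
    have h' : Step (v &0) (v &1) := h
    generalize hx : v &0 = x at h'
    generalize hy : v &1 = y at h'
    cases h' with
    | zero k v => exact Or.inl ⟨(cons k (cons v nil)), hx, hy⟩
    | succ k v => exact Or.inr (Or.inl ⟨(cons k (cons v nil)), hx, hy⟩)
    | left k a b => exact Or.inr (Or.inr (Or.inl ⟨(cons k (cons a (cons b nil))), hx, hy⟩))
    | right k a b => exact Or.inr (Or.inr (Or.inr (Or.inl ⟨(cons k (cons a (cons b nil))), hx, hy⟩)))
    | pair cf cg k v => exact Or.inr (Or.inr (Or.inr (Or.inr (Or.inl ⟨(cons cf (cons cg (cons k (cons v nil)))), hx, hy⟩))))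
    | comp cf cg k v => exact Or.inr (Or.inr (Or.inr (Or.inr (Or.inr (Or.inl ⟨(cons cf (cons cg (cons k (cons v nil)))), hx, hy⟩)))))
    | prec cf cg k a m => exact Or.inr (Or.inr (Or.inr (Or.inr (Or.inr (Or.inr (Or.inl ⟨(cons cf (cons cg (cons k (cons a (cons m nil))))), hx, hy⟩))))))
    | rfind cf k a m => exact Or.inr (Or.inr (Or.inr (Or.inr (Or.inr (Or.inr (Or.inr (Or.inl ⟨(cons cf (cons k (cons a (cons m nil)))), hx, hy⟩)))))))
    | ret0 v => exact Or.inr (Or.inr (Or.inr (Or.inr (Or.inr (Or.inr (Or.inr (Or.inr (Or.inl ⟨(cons v nil), hx, hy⟩))))))))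
    | ret1 c n k v => exact Or.inr (Or.inr (Or.inr (Or.inr (Or.inr (Or.inr (Or.inr (Or.inr (Or.inr (Or.inl ⟨(cons c (cons n (cons k (cons v nil)))), hx, hy⟩)))))))))
    | ret2 a k v => exact Or.inr (Or.inr (Or.inr (Or.inr (Or.inr (Or.inr (Or.inr (Or.inr (Or.inr (Or.inr (Or.inl ⟨(cons a (cons k (cons v nil))), hx, hy⟩))))))))))
    | ret3 c k v => exact Or.inr (Or.inr (Or.inr (Or.inr (Or.inr (Or.inr (Or.inr (Or.inr (Or.inr (Or.inr (Or.inr (Or.inl ⟨(cons c (cons k (cons v nil))), hx, hy⟩)))))))))))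
    | ret4z c a y k v => exact Or.inr (Or.inr (Or.inr (Or.inr (Or.inr (Or.inr (Or.inr (Or.inr (Or.inr (Or.inr (Or.inr (Or.inr (Or.inl ⟨(cons c (cons a (cons y (cons k (cons v nil))))), hx, hy⟩))))))))))))
    | ret4s c a y m k v => exact Or.inr (Or.inr (Or.inr (Or.inr (Or.inr (Or.inr (Or.inr (Or.inr (Or.inr (Or.inr (Or.inr (Or.inr (Or.inr (Or.inl ⟨(cons c (cons a (cons y (cons m (cons k (cons v nil)))))), hx, hy⟩)))))))))))))
    | ret5z c a m k => exact Or.inr (Or.inr (Or.inr (Or.inr (Or.inr (Or.inr (Or.inr (Or.inr (Or.inr (Or.inr (Or.inr (Or.inr (Or.inr (Or.inr (Or.inl ⟨(cons c (cons a (cons m (cons k nil)))), hx, hy⟩))))))))))))))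
    | ret5s c a m k v => exact Or.inr (Or.inr (Or.inr (Or.inr (Or.inr (Or.inr (Or.inr (Or.inr (Or.inr (Or.inr (Or.inr (Or.inr (Or.inr (Or.inr (Or.inr (⟨(cons c (cons a (cons m (cons k (cons v nil))))), hx, hy⟩)))))))))))))))

end Pool.Agent.Lib.MP_689b4c_al
end

section

/-!
From a Diophantine relation on `ℕ` to a polynomial guard over `ℤ` in finitely many variables.
-/

namespace Pool.Agent.Lib.MP_689b4c_al

open Dioph Fin2 Vector3

theorem poly_eq_eval {α : Type} (p : Poly α) :
    ∃ F : MvPolynomial α ℤ, ∀ v : α → ℕ, p v = MvPolynomial.eval (fun i => (v i : ℤ)) F := by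
  induction p using Poly.induction with
  | H1 i => exact ⟨MvPolynomial.X i, fun v => by simp⟩
  | H2 n => exact ⟨MvPolynomial.C n, fun v => by simp⟩
  | H3 f g hf hg =>
    obtain ⟨F, hF⟩ := hf
    obtain ⟨G, hG⟩ := hg
    exact ⟨F - G, fun v => by simp [hF, hG]⟩
  | H4 f g hf hg =>
    obtain ⟨F, hF⟩ := hf
    obtain ⟨G, hG⟩ := hg
    exact ⟨F * G, fun v => by simp [hF, hG]⟩

/-- A Diophantine binary relation on `ℕ` together with the identity relation on `ℤ` is given by
the zero set of an integer polynomial in finitely many integer variables. -/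
theorem exists_guard (R : ℕ → ℕ → Prop) (hR : Dioph {v : Vector3 ℕ 2 | R (v &0) (v &1)}) :
    ∃ (I : Type) (_ : Fintype I) (_ : DecidableEq I) (x y : I) (P : MvPolynomial I ℤ),
      ∀ a b : ℤ, (∃ j : I → ℤ, MvPolynomial.eval j P = 0 ∧ j x = a ∧ j y = b) ↔
        (a = b ∨ ∃ m n : ℕ, a = m ∧ b = n ∧ R m n) := by
  classical
  obtain ⟨β, p, hp⟩ := hR
  obtain ⟨F, hF⟩ := poly_eq_eval p
  obtain ⟨s0, q0, hq0⟩ := MvPolynomial.exists_finset_rename F
  set s : Finset (Fin2 2 ⊕ β) := insert (Sum.inl &0) (insert (Sum.inl &1) s0) with hs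
  have hs0 : ∀ i ∈ s0, i ∈ s := fun i hi => by simp [hs, hi]
  set q : MvPolynomial {i // i ∈ s} ℤ :=
    MvPolynomial.rename (fun i : {i // i ∈ s0} => (⟨i.1, hs0 i.1 i.2⟩ : {i // i ∈ s})) q0 with hq
  have hFq : F = MvPolynomial.rename Subtype.val q := by
    rw [hq0, hq, MvPolynomial.rename_rename]
    rfl
  have x0 : {i // i ∈ s} := ⟨Sum.inl &0, by simp [hs]⟩
  let xx : {i // i ∈ s} := ⟨Sum.inl &0, by simp [hs]⟩
  let yy : {i // i ∈ s} := ⟨Sum.inl &1, by simp [hs]⟩
  let I := ({i // i ∈ s} × Fin 4) ⊕ Bool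
  let sq : {i // i ∈ s} → MvPolynomial I ℤ := fun i =>
    ∑ l : Fin 4, MvPolynomial.X (Sum.inl (i, l)) ^ 2
  let P : MvPolynomial I ℤ :=
    ((MvPolynomial.bind₁ sq q) ^ 2 + (MvPolynomial.X (Sum.inr false) - sq xx) ^ 2 +
      (MvPolynomial.X (Sum.inr true) - sq yy) ^ 2) *
      (MvPolynomial.X (Sum.inr false) - MvPolynomial.X (Sum.inr true))
  have hP : ∀ j : I → ℤ, MvPolynomial.eval j P = 0 ↔
      ((MvPolynomial.eval (fun i => ∑ l : Fin 4, j (Sum.inl (i, l)) ^ 2) q = 0 ∧
        j (Sum.inr false) = ∑ l : Fin 4, j (Sum.inl (xx, l)) ^ 2 ∧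
        j (Sum.inr true) = ∑ l : Fin 4, j (Sum.inl (yy, l)) ^ 2) ∨
        j (Sum.inr false) = j (Sum.inr true)) := by
    intro j
    have h1 : MvPolynomial.eval j (MvPolynomial.bind₁ sq q) =
        MvPolynomial.eval (fun i => ∑ l : Fin 4, j (Sum.inl (i, l)) ^ 2) q := by
      have : (MvPolynomial.eval (fun i => ∑ l : Fin 4, j (Sum.inl (i, l)) ^ 2)) =
          (MvPolynomial.eval j).comp (MvPolynomial.bind₁ sq).toRingHom := by
        ext i
        · simp
        · simp [sq]
      rw [this]; rfl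
    simp only [P, map_mul, map_add, map_sub, map_pow, MvPolynomial.eval_X, mul_eq_zero, h1]
    have h2 : ∀ i, MvPolynomial.eval j (sq i) = ∑ l : Fin 4, j (Sum.inl (i, l)) ^ 2 := by
      intro i; simp [sq]
    rw [h2, h2]
    constructor
    · rintro (h | h)
      · left
        set A := MvPolynomial.eval (fun i => ∑ l : Fin 4, j (Sum.inl (i, l)) ^ 2) q
        set B := j (Sum.inr false) - ∑ l : Fin 4, j (Sum.inl (xx, l)) ^ 2
        set C := j (Sum.inr true) - ∑ l : Fin 4, j (Sum.inl (yy, l)) ^ 2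
        have hA : A ^ 2 = 0 := by nlinarith [sq_nonneg A, sq_nonneg B, sq_nonneg C]
        have hB : B ^ 2 = 0 := by nlinarith [sq_nonneg A, sq_nonneg B, sq_nonneg C]
        have hC : C ^ 2 = 0 := by nlinarith [sq_nonneg A, sq_nonneg B, sq_nonneg C]
        refine ⟨pow_eq_zero_iff (two_ne_zero) |>.1 hA, ?_, ?_⟩
        · exact sub_eq_zero.1 (pow_eq_zero_iff (two_ne_zero) |>.1 hB)
        · exact sub_eq_zero.1 (pow_eq_zero_iff (two_ne_zero) |>.1 hC)
      · right
        exact sub_eq_zero.1 h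
    · rintro (⟨h1, h2, h3⟩ | h)
      · left; rw [h1, h2, h3]; simp
      · right; rw [h]; simp
  refine ⟨I, inferInstance, inferInstance, Sum.inr false, Sum.inr true, P, fun a b => ?_⟩
  constructor
  · rintro ⟨j, hj, rfl, rfl⟩
    rcases (hP j).1 hj with ⟨h1, h2, h3⟩ | h
    · right
      set t : Fin2 2 ⊕ β → ℕ := fun i =>
        if hi : i ∈ s then (∑ l : Fin 4, j (Sum.inl (⟨i, hi⟩, l)) ^ 2).toNat else 0 with ht
      have ht' : ∀ i : {i // i ∈ s}, (t i.1 : ℤ) = ∑ l : Fin 4, j (Sum.inl (i, l)) ^ 2 := by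
        intro i
        simp only [ht, i.2, dif_pos]
        rw [Int.toNat_of_nonneg]
        exact Finset.sum_nonneg fun l _ => sq_nonneg _
      have hv : R (t (Sum.inl &0)) (t (Sum.inl &1)) := by
        refine (hp (fun i => t (Sum.inl i))).2 ⟨fun i => t (Sum.inr i), ?_⟩
        have hsum : Sum.elim (fun i => t (Sum.inl i)) (fun i => t (Sum.inr i)) = t := by
          funext i; rcases i with i | i <;> rfl
        rw [hsum, hF, hFq, MvPolynomial.eval_rename]
        have : ((fun i => (t i : ℤ)) ∘ Subtype.val : {i // i ∈ s} → ℤ) =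
            fun i => ∑ l : Fin 4, j (Sum.inl (i, l)) ^ 2 := by
          funext i; exact ht' i
        rw [this, h1]
      refine ⟨t (Sum.inl &0), t (Sum.inl &1), ?_, ?_, hv⟩
      · rw [h2]; exact (ht' xx).symm
      · rw [h3]; exact (ht' yy).symm
    · left; exact h
  · rintro (rfl | ⟨m, n, rfl, rfl, hmn⟩)
    · exact ⟨fun _ => a, (hP _).2 (Or.inr rfl), rfl, rfl⟩
    · obtain ⟨t, ht⟩ := (hp (cons m (cons n nil) : Vector3 ℕ 2)).1 hmn
      set w : Fin2 2 ⊕ β → ℕ := Sum.elim (cons m (cons n nil) : Vector3 ℕ 2) t with hw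
      have h4 : ∀ k : ℕ, ∃ f : Fin 4 → ℤ, (k : ℤ) = ∑ l : Fin 4, f l ^ 2 := by
        intro k
        obtain ⟨a, b, c, d, h⟩ := Nat.sum_four_squares k
        refine ⟨![a, b, c, d], ?_⟩
        simp [Fin.sum_univ_four]
        exact_mod_cast h.symm
      choose f hf using h4
      let j : I → ℤ := Sum.elim (fun il => f (w il.1.1) il.2) (fun b => if b then (n : ℤ) else m)
      refine ⟨j, (hP j).2 (Or.inl ⟨?_, ?_, ?_⟩), rfl, rfl⟩
      · have : (fun i : {i // i ∈ s} => ∑ l : Fin 4, j (Sum.inl (i, l)) ^ 2) =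
            (fun i => (w i : ℤ)) ∘ Subtype.val := by
          funext i
          exact (hf (w i.1)).symm
        rw [this, ← MvPolynomial.eval_rename, ← hFq, ← hF]
        exact ht
      · exact hf m
      · exact hf n

end Pool.Agent.Lib.MP_689b4c_al
end

section

/-!
The group `W = M ⋊ Q`.
-/

namespace Pool.Agent.Lib.MP_689b4c_al

/-- The quotient group: functions `(I → ℤ) → ℤ` extended by translations, times `ℤ`. -/
@[ext] structure QW (I : Type) where
  f : (I → ℤ) → ℤ
  k : ℤ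
  v : I → ℤ

namespace QW
variable {I : Type}

instance : Mul (QW I) := ⟨fun p q => ⟨fun j => p.f j + q.f (j - p.v), p.k + q.k, p.v + q.v⟩⟩
instance : One (QW I) := ⟨⟨fun _ => 0, 0, 0⟩⟩
instance : Inv (QW I) := ⟨fun p => ⟨fun j => - p.f (j + p.v), -p.k, -p.v⟩⟩

@[simp] theorem mul_f (p q : QW I) (j : I → ℤ) : (p * q).f j = p.f j + q.f (j - p.v) := rfl
@[simp] theorem mul_k (p q : QW I) : (p * q).k = p.k + q.k := rfl
@[simp] theorem mul_v (p q : QW I) : (p * q).v = p.v + q.v := rfl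
@[simp] theorem one_f (j : I → ℤ) : (1 : QW I).f j = 0 := rfl
@[simp] theorem one_k : (1 : QW I).k = 0 := rfl
@[simp] theorem one_v : (1 : QW I).v = 0 := rfl
@[simp] theorem inv_f (p : QW I) (j : I → ℤ) : (p⁻¹).f j = - p.f (j + p.v) := rfl
@[simp] theorem inv_k (p : QW I) : (p⁻¹).k = - p.k := rfl
@[simp] theorem inv_v (p : QW I) : (p⁻¹).v = - p.v := rfl

instance : Group (QW I) := Group.ofLeftAxioms
  (by
    intro a b c
    ext j
    · simp [sub_sub, add_assoc]
    · simp [add_assoc]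
    · simp [add_assoc])
  (by
    intro a
    ext j
    · simp
    · simp
    · simp)
  (by
    intro a
    ext j
    · simp
    · simp
    · simp)

end QW

/-- Basis of the module. -/
abbrev Bas (I : Type) := ((I → ℤ) × ℤ) ⊕ ℤ ⊕ ℤ

/-- The module. -/
abbrev Mod (I : Type) := Bas I →₀ ℤ

variable {I : Type} (x y : I)

/-- basis vectors -/
noncomputable def bB (j : I → ℤ) (a : ℤ) : Mod I := Finsupp.single (Sum.inl (j, a)) 1
noncomputable def e1 (n : ℤ) : Mod I := Finsupp.single (Sum.inr (Sum.inl n)) 1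
noncomputable def e2 (n : ℤ) : Mod I := Finsupp.single (Sum.inr (Sum.inr n)) 1

/-- image of the basis -/
noncomputable def img (q : QW I) : Bas I → Mod I
  | Sum.inl (j, a) => bB (j + q.v) (a + q.f (j + q.v)) + q.k • (e1 ((j + q.v) x) - e2 ((j + q.v) y))
  | Sum.inr (Sum.inl n) => e1 (n + q.v x)
  | Sum.inr (Sum.inr n) => e2 (n + q.v y)

/-- the action -/
noncomputable def act (q : QW I) : Mod I →ₗ[ℤ] Mod I := Finsupp.linearCombination ℤ (img x y q)

@[simp] theorem act_bB (q : QW I) (j : I → ℤ) (a : ℤ) :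
    act x y q (bB j a) =
      bB (j + q.v) (a + q.f (j + q.v)) + q.k • (e1 ((j + q.v) x) - e2 ((j + q.v) y)) := by
  simp only [act, bB, Finsupp.linearCombination_single, one_smul]
  rfl

@[simp] theorem act_e1 (q : QW I) (n : ℤ) : act x y q (e1 n) = e1 (n + q.v x) := by
  simp only [act, e1, Finsupp.linearCombination_single, one_smul]
  rfl

@[simp] theorem act_e2 (q : QW I) (n : ℤ) : act x y q (e2 n) = e2 (n + q.v y) := by
  simp only [act, e2, Finsupp.linearCombination_single, one_smul]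
  rfl

theorem mod_hom_ext {N : Type*} [AddCommGroup N] {f g : Mod I →ₗ[ℤ] N}
    (hB : ∀ j a, f (bB j a) = g (bB j a)) (h1 : ∀ n, f (e1 n) = g (e1 n))
    (h2 : ∀ n, f (e2 n) = g (e2 n)) : f = g := by
  apply Finsupp.lhom_ext'
  rintro (⟨j, a⟩ | n | n)
  · ext; exact hB j a
  · ext; exact h1 n
  · ext; exact h2 n

theorem act_one : act x y (1 : QW I) = LinearMap.id := by
  apply mod_hom_ext
  · intro j a; simp
  · intro n; simp
  · intro n; simp

theorem act_mul (p q : QW I) : act x y (p * q) = act x y p ∘ₗ act x y q := by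
  apply mod_hom_ext
  · intro j a
    simp only [act_bB, LinearMap.comp_apply, map_add, map_smul, map_sub, act_e1, act_e2, QW.mul_v,
      QW.mul_f, QW.mul_k]
    have h1 : j + (p.v + q.v) = j + q.v + p.v := by abel
    have h2 : j + q.v + p.v - p.v = j + q.v := by abel
    rw [h1, h2]
    simp only [Pi.add_apply, add_smul]
    have h3 : a + (p.f (j + q.v + p.v) + q.f (j + q.v)) =
      a + q.f (j + q.v) + p.f (j + q.v + p.v) := by ring
    rw [h3]
    abel
  · intro n; simp; congr 1; ring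
  · intro n; simp; congr 1; ring

/-- The group `W`. -/
@[ext] structure W (x y : I) where
  m : Mod I
  q : QW I

namespace W
variable {x y}

noncomputable instance : Mul (W x y) := ⟨fun a b => ⟨a.m + act x y a.q b.m, a.q * b.q⟩⟩
noncomputable instance : One (W x y) := ⟨⟨0, 1⟩⟩
noncomputable instance : Inv (W x y) := ⟨fun a => ⟨- act x y a.q⁻¹ a.m, a.q⁻¹⟩⟩

@[simp] theorem mul_m (a b : W x y) : (a * b).m = a.m + act x y a.q b.m := rfl
@[simp] theorem mul_q (a b : W x y) : (a * b).q = a.q * b.q := rfl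
@[simp] theorem one_m : (1 : W x y).m = 0 := rfl
@[simp] theorem one_q : (1 : W x y).q = 1 := rfl
@[simp] theorem inv_m (a : W x y) : (a⁻¹).m = - act x y a.q⁻¹ a.m := rfl
@[simp] theorem inv_q (a : W x y) : (a⁻¹).q = a.q⁻¹ := rfl

noncomputable instance : Group (W x y) := Group.ofLeftAxioms
  (by
    intro a b c
    apply W.ext
    · simp [act_mul, add_assoc]
    · simp [mul_assoc])
  (by
    intro a
    apply W.ext
    · simp [act_one]
    · simp)
  (by
    intro a
    apply W.ext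
    · simp
    · simp)

/-- projection to the quotient. -/
noncomputable def proj : W x y →* QW I where
  toFun := W.q
  map_one' := rfl
  map_mul' _ _ := rfl

@[simp] theorem proj_apply (a : W x y) : proj a = a.q := rfl

end W

end Pool.Agent.Lib.MP_689b4c_al
end

section

/-!
Conjugacy in the group `W`.
-/

namespace Pool.Agent.Lib.MP_689b4c_al

variable {I : Type} {x y : I}

/-- element of the module -/
noncomputable def mel (x y : I) (m : Mod I) : W x y := ⟨m, 1⟩
/-- element of the quotient -/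
noncomputable def qel (x y : I) (q : QW I) : W x y := ⟨0, q⟩

@[simp] theorem mel_m (m : Mod I) : (mel x y m).m = m := rfl
@[simp] theorem mel_q (m : Mod I) : (mel x y m).q = 1 := rfl
@[simp] theorem qel_m (q : QW I) : (qel x y q).m = 0 := rfl
@[simp] theorem qel_q (q : QW I) : (qel x y q).q = q := rfl

theorem mel_add (m m' : Mod I) : mel x y (m + m') = mel x y m * mel x y m' := by
  apply W.ext <;> simp [act_one]

theorem mel_neg (m : Mod I) : mel x y (-m) = (mel x y m)⁻¹ := by
  apply W.ext <;> simp [act_one]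

theorem qel_mul (q q' : QW I) : qel x y (q * q') = qel x y q * qel x y q' := by
  apply W.ext <;> simp

theorem qel_inv (q : QW I) : qel x y (q⁻¹) = (qel x y q)⁻¹ := by
  apply W.ext <;> simp

theorem qel_conj (q : QW I) (m : Mod I) :
    qel x y q * mel x y m * (qel x y q)⁻¹ = mel x y (act x y q m) := by
  apply W.ext <;> simp

/-- translation element -/
def tr (v : I → ℤ) : QW I := ⟨fun _ => 0, 0, v⟩

@[simp] theorem tr_f (v : I → ℤ) (j : I → ℤ) : (tr v).f j = 0 := rfl
@[simp] theorem tr_k (v : I → ℤ) : (tr v).k = 0 := rfl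
@[simp] theorem tr_v (v : I → ℤ) : (tr v).v = v := rfl

theorem tr_add (v w : I → ℤ) : tr (v + w) = tr v * tr w := by
  apply QW.ext
  · funext j; simp
  · simp
  · simp

theorem tr_neg (v : I → ℤ) : tr (-v) = (tr v)⁻¹ := by
  apply QW.ext
  · funext j; simp
  · simp
  · simp

theorem tr_zero : tr (0 : I → ℤ) = 1 := by
  apply QW.ext
  · funext j; simp
  · simp
  · simp

/-- The special element of the quotient. -/
def q0 (P : (I → ℤ) → ℤ) : QW I := ⟨P, 1, 0⟩

@[simp] theorem q0_f (P : (I → ℤ) → ℤ) (j : I → ℤ) : (q0 P).f j = P j := rfl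
@[simp] theorem q0_k (P : (I → ℤ) → ℤ) : (q0 P).k = 1 := rfl
@[simp] theorem q0_v (P : (I → ℤ) → ℤ) : (q0 P).v = 0 := rfl

section
variable [Fintype I] [DecidableEq I]

theorem tr_mem (K : Subgroup (W x y)) (hT : ∀ i, qel x y (tr (Pi.single i 1)) ∈ K) (v : I → ℤ) :
    qel x y (tr v) ∈ K := by
  let A : AddSubgroup (I → ℤ) :=
    { carrier := {v | qel x y (tr v) ∈ K}
      add_mem' := by
        intro a b ha hb
        simp only [Set.mem_ofPred_eq, tr_add, qel_mul] at *
        exact K.mul_mem ha hb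
      zero_mem' := by
        simp only [Set.mem_ofPred_eq, tr_zero]
        exact K.one_mem
      neg_mem' := by
        intro a ha
        simp only [Set.mem_ofPred_eq, tr_neg, qel_inv] at *
        exact K.inv_mem ha }
  have h : v ∈ A := by
    rw [← Finset.univ_sum_single v]
    refine A.sum_mem fun i _ => ?_
    have : Pi.single i (v i) = (v i) • (Pi.single i (1 : ℤ) : I → ℤ) := by
      rw [← Pi.single_smul]; simp
    rw [this]
    exact A.zsmul_mem (hT i) _
  exact h

theorem bB_mem (K : Subgroup (W x y)) (hT : ∀ i, qel x y (tr (Pi.single i 1)) ∈ K)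
    (hB : mel x y (bB 0 0) ∈ K) (j : I → ℤ) : mel x y (bB j 0) ∈ K := by
  have h := qel_conj (x := x) (y := y) (tr j) (bB 0 0)
  have h2 : act x y (tr j) (bB 0 0) = bB j 0 := by simp
  rw [h2] at h
  rw [← h]
  exact K.mul_mem (K.mul_mem (tr_mem K hT j) hB) (K.inv_mem (tr_mem K hT j))

end

/-- The relation on `ℤ` given by the guard. -/
def Rel (x y : I) (P : (I → ℤ) → ℤ) (a b : ℤ) : Prop := ∃ j : I → ℤ, P j = 0 ∧ j x = a ∧ j y = b

theorem conj_of_conn [Fintype I] [DecidableEq I] (P : (I → ℤ) → ℤ) (hP : ∀ a, Rel x y P a a)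
    (K : Subgroup (W x y)) (hT : ∀ i, qel x y (tr (Pi.single i 1)) ∈ K)
    (hB : mel x y (bB 0 0) ∈ K) {a b : ℤ} (h : Relation.EqvGen (Rel x y P) a b) :
    ∃ m : Mod I, mel x y m ∈ K ∧ e1 a - e1 b = m - act x y (q0 P) m := by
  have key : ∀ a b, Rel x y P a b →
      ∃ m : Mod I, mel x y m ∈ K ∧ e2 b - e1 a = m - act x y (q0 P) m := by
    rintro a b ⟨j, hj, rfl, rfl⟩
    refine ⟨bB j 0, bB_mem K hT hB j, ?_⟩
    simp [hj]
  induction h with
  | rel a b h =>
    obtain ⟨m, hm, h1⟩ := key a b h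
    obtain ⟨m', hm', h2⟩ := key b b (hP b)
    refine ⟨m' - m, ?_, ?_⟩
    · rw [sub_eq_add_neg, mel_add, mel_neg]
      exact K.mul_mem hm' (K.inv_mem hm)
    · rw [map_sub]
      have : m' - m - (act x y (q0 P) m' - act x y (q0 P) m) =
        (m' - act x y (q0 P) m') - (m - act x y (q0 P) m) := by abel
      rw [this, ← h1, ← h2]; abel
  | refl a => exact ⟨0, K.one_mem, by simp⟩
  | symm a b _ ih =>
    obtain ⟨m, hm, h⟩ := ih
    refine ⟨-m, by rw [mel_neg]; exact K.inv_mem hm, ?_⟩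
    rw [map_neg, ← neg_sub (e1 a), h]; abel
  | trans a b c _ _ ih1 ih2 =>
    obtain ⟨m, hm, h⟩ := ih1
    obtain ⟨m', hm', h'⟩ := ih2
    refine ⟨m + m', by rw [mel_add]; exact K.mul_mem hm hm', ?_⟩
    have : (e1 a : Mod I) - e1 c = (e1 a - e1 b) + (e1 b - e1 c) := by abel
    rw [this, h, h', map_add]; abel

open Classical in
theorem conn_of_conj (P : (I → ℤ) → ℤ) {a b : ℤ} (m : Mod I)
    (h : e1 a - e1 b = m - act x y (q0 P) m) : Relation.EqvGen (Rel x y P) a b := by
  let χ : ℤ → ℤ := fun n => if Relation.EqvGen (Rel x y P) a n then 1 else 0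
  have hχ : ∀ j : I → ℤ, P j = 0 → χ (j x) = χ (j y) := by
    intro j hj
    have hR : Relation.EqvGen (Rel x y P) (j x) (j y) := Relation.EqvGen.rel _ _ ⟨j, hj, rfl, rfl⟩
    simp only [χ]
    congr 1
    apply propext
    exact ⟨fun h => h.trans _ _ _ hR, fun h => h.trans _ _ _ (hR.symm _ _)⟩
  let φ : Bas I → ℤ
    | Sum.inl (j, c) => - (c / P j) * (χ (j x) - χ (j y))
    | Sum.inr (Sum.inl n) => χ n
    | Sum.inr (Sum.inr n) => χ n
  let Φ : Mod I →ₗ[ℤ] ℤ := Finsupp.linearCombination ℤ φ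
  have hΦB : ∀ j c, Φ (bB j c) = - (c / P j) * (χ (j x) - χ (j y)) := by
    intro j c; simp [Φ, bB, φ]
  have hΦ1 : ∀ n, Φ (e1 n) = χ n := by intro n; simp [Φ, e1, φ]
  have hΦ2 : ∀ n, Φ (e2 n) = χ n := by intro n; simp [Φ, e2, φ]
  have hinv : Φ ∘ₗ act x y (q0 P) = Φ := by
    apply mod_hom_ext
    · intro j c
      simp only [LinearMap.comp_apply, act_bB, map_add, map_sub, hΦB, hΦ1, hΦ2, q0_f,
        q0_k, q0_v, add_zero, one_smul]
      by_cases hj : P j = 0
      · rw [hχ j hj]; simp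
      · have : (c + P j) / P j = c / P j + 1 := by
          have := Int.add_mul_ediv_right c 1 hj
          rwa [one_mul] at this
        rw [this]; ring
    · intro n; simp [hΦ1]
    · intro n; simp [hΦ2]
  have h1 : Φ (e1 a - e1 b) = 0 := by
    rw [h, map_sub]
    have := LinearMap.congr_fun hinv m
    rw [LinearMap.comp_apply] at this
    rw [this, sub_self]
  rw [map_sub, hΦ1, hΦ1] at h1
  have ha : χ a = 1 := if_pos (Relation.EqvGen.refl a)
  by_contra hb
  have hb' : χ b = 0 := if_neg hb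
  rw [ha, hb'] at h1
  norm_num at h1

/-- Conjugacy in a subgroup of `W`. -/
theorem isConj_iff_conn [Fintype I] [DecidableEq I] (P : (I → ℤ) → ℤ) (hP : ∀ a, Rel x y P a a)
    (K : Subgroup (W x y)) (hT : ∀ i, qel x y (tr (Pi.single i 1)) ∈ K)
    (hB : mel x y (bB 0 0) ∈ K) {a b : ℤ} (u v : K)
    (hu : (u : W x y) = mel x y (e1 a - e1 b) * qel x y (q0 P)) (hv : (v : W x y) = qel x y (q0 P)) :
    IsConj u v ↔ Relation.EqvGen (Rel x y P) a b := by
  constructor
  · intro h
    obtain ⟨c, hc⟩ := isConj_iff.1 h.symm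
    have hc' : (c : W x y) * v = u * c := by
      rw [← hc]; simp
    have hm := congrArg W.m hc'
    rw [hu, hv] at hm
    simp [act_one] at hm
    exact conn_of_conj (x := x) (y := y) P (c : W x y).m (eq_sub_of_add_eq hm.symm)
  · intro h
    obtain ⟨m, hm, h1⟩ := conj_of_conn P hP K hT hB h
    refine (isConj_iff.2 ⟨⟨mel x y m, hm⟩, ?_⟩ : IsConj v u).symm
    apply Subtype.ext
    simp only [Subgroup.coe_mul, Subgroup.coe_inv, hu, hv]
    rw [mul_inv_eq_iff_eq_mul]
    apply W.ext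
    · simp [act_one, h1]
    · simp

end Pool.Agent.Lib.MP_689b4c_al
end

section

/-!
The quotient is polycyclic.
-/

namespace Pool.Agent.Lib.MP_689b4c_al

variable {I : Type}

/-- translation invariance of a submodule of functions. -/
def TrInv (C : Submodule ℤ ((I → ℤ) → ℤ)) : Prop :=
  ∀ f ∈ C, ∀ v : I → ℤ, (fun j => f (j - v)) ∈ C

theorem TrInv.sup {C D : Submodule ℤ ((I → ℤ) → ℤ)} (hC : TrInv C) (hD : TrInv D) :
    TrInv (C ⊔ D) := by
  intro f hf v
  obtain ⟨c, hc, d, hd, rfl⟩ := Submodule.mem_sup.1 hf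
  exact Submodule.mem_sup.2 ⟨_, hC c hc v, _, hD d hd v, rfl⟩

theorem TrInv.mul {C D : Submodule ℤ ((I → ℤ) → ℤ)} (hC : TrInv C) (hD : TrInv D) :
    TrInv (C * D) := by
  intro f hf v
  induction hf using Submodule.mul_induction_on' with
  | mem_mul_mem c hc d hd => exact Submodule.mul_mem_mul (hC c hc v) (hD d hd v)
  | add a _ b _ ha hb => exact Submodule.add_mem _ ha hb

theorem exists_trInv (P : MvPolynomial I ℤ) :
    ∃ C : Submodule ℤ ((I → ℤ) → ℤ), C.FG ∧ TrInv C ∧ (fun j => MvPolynomial.eval j P) ∈ C := by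
  induction P using MvPolynomial.induction_on with
  | C a =>
    refine ⟨Submodule.span ℤ {fun _ => (1 : ℤ)}, ⟨{fun _ => 1}, by simp⟩, ?_, ?_⟩
    · intro f hf v
      obtain ⟨n, rfl⟩ := Submodule.mem_span_singleton.1 hf
      exact Submodule.mem_span_singleton.2 ⟨n, rfl⟩
    · exact Submodule.mem_span_singleton.2 ⟨a, by funext j; simp⟩
  | add p q hp hq =>
    obtain ⟨C, h1, h2, h3⟩ := hp
    obtain ⟨D, k1, k2, k3⟩ := hq
    refine ⟨C ⊔ D, h1.sup k1, h2.sup k2, ?_⟩
    simp only [map_add]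
    exact Submodule.add_mem_sup h3 k3
  | mul_X p i hp =>
    obtain ⟨C, h1, h2, h3⟩ := hp
    let D : Submodule ℤ ((I → ℤ) → ℤ) := Submodule.span ℤ {fun _ => (1 : ℤ), fun j => j i}
    have hD : TrInv D := by
      intro f hf v
      obtain ⟨a, b, rfl⟩ := Submodule.mem_span_pair.1 hf
      refine Submodule.mem_span_pair.2 ⟨a - b * v i, b, ?_⟩
      funext j
      simp
      ring
    refine ⟨C * D, h1.mul (Submodule.fg_span (Set.toFinite _)), h2.mul hD, ?_⟩
    simp only [map_mul, MvPolynomial.eval_X]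
    exact Submodule.mul_mem_mul h3 (Submodule.subset_span (by simp))

/-- The subgroup of `QW` of elements with functions in `C`. -/
def QC (C : Submodule ℤ ((I → ℤ) → ℤ)) (hC : TrInv C) : Subgroup (QW I) where
  carrier := {q | q.f ∈ C}
  mul_mem' := by
    intro p q hp hq
    exact C.add_mem hp (hC _ hq p.v)
  one_mem' := C.zero_mem
  inv_mem' := by
    intro p hp
    have := C.neg_mem (hC _ hp (-p.v))
    simp only [sub_neg_eq_add] at this
    exact this

theorem mem_QC {C : Submodule ℤ ((I → ℤ) → ℤ)} {hC : TrInv C} {q : QW I} :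
    q ∈ QC C hC ↔ q.f ∈ C := Iff.rfl

theorem subgroup_QC_fg [Fintype I] {C : Submodule ℤ ((I → ℤ) → ℤ)} (hC : TrInv C) (hfg : C.FG)
    (K : Subgroup (QW I)) (hK : K ≤ QC C hC) : K.FG := by
  classical
  have : IsNoetherian ℤ C := isNoetherian_of_fg_of_noetherian C hfg
  -- image in the translations
  let L : AddSubgroup (I → ℤ) :=
    { carrier := {v | ∃ p ∈ K, p.v = v}
      add_mem' := by
        rintro a b ⟨p, hp, rfl⟩ ⟨q, hq, rfl⟩
        exact ⟨p * q, K.mul_mem hp hq, rfl⟩
      zero_mem' := ⟨1, K.one_mem, rfl⟩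
      neg_mem' := by
        rintro a ⟨p, hp, rfl⟩
        exact ⟨p⁻¹, K.inv_mem hp, rfl⟩ }
  let N : AddSubgroup (C × ℤ) :=
    { carrier := {c | (⟨c.1.1, c.2, 0⟩ : QW I) ∈ K}
      add_mem' := by
        rintro ⟨a, k⟩ ⟨b, l⟩ ha hb
        have := K.mul_mem ha hb
        have h2 : ((⟨a.1, k, 0⟩ : QW I) * ⟨b.1, l, 0⟩) = ⟨(a + b).1, k + l, 0⟩ := by
          apply QW.ext
          · funext j; simp
          · simp
          · simp
        rw [h2] at this
        exact this
      zero_mem' := K.one_mem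
      neg_mem' := by
        rintro ⟨a, k⟩ ha
        have := K.inv_mem ha
        have h2 : ((⟨a.1, k, 0⟩ : QW I)⁻¹) = ⟨(-a).1, -k, 0⟩ := by
          apply QW.ext
          · funext j; simp
          · simp
          · simp
        rw [h2] at this
        exact this }
  have hL : L.FG := by
    have := IsNoetherian.noetherian (AddSubgroup.toIntSubmodule L)
    rwa [Submodule.fg_iff_addSubgroup_fg] at this
  have hN : N.FG := by
    have := IsNoetherian.noetherian (AddSubgroup.toIntSubmodule N)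
    rwa [Submodule.fg_iff_addSubgroup_fg] at this
  obtain ⟨S, hS⟩ := hL
  obtain ⟨T, hT⟩ := hN
  have hS' : ∀ v ∈ S, ∃ p ∈ K, p.v = v := by
    intro v hv
    have : v ∈ L := by rw [← hS]; exact AddSubgroup.subset_closure hv
    exact this
  choose! g hgK hgv using hS'
  let U : Set (QW I) := (g '' (S : Set (I → ℤ))) ∪ ((fun c : C × ℤ => (⟨c.1.1, c.2, 0⟩ : QW I)) '' (T : Set (C × ℤ)))
  have hU : U.Finite := (S.finite_toSet.image _).union (T.finite_toSet.image _)
  refine (Subgroup.fg_iff K).2 ⟨U, ?_, hU⟩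
  apply le_antisymm
  · rw [Subgroup.closure_le]
    rintro _ (⟨v, hv, rfl⟩ | ⟨c, hc, rfl⟩)
    · exact hgK v hv
    · have : c ∈ N := by rw [← hT]; exact AddSubgroup.subset_closure hc
      exact this
  · -- first lift translations
    have h1 : ∀ v ∈ AddSubgroup.closure (S : Set (I → ℤ)), ∃ p ∈ Subgroup.closure U, p.v = v := by
      intro v hv
      induction hv using AddSubgroup.closure_induction with
      | mem v hv => exact ⟨g v, Subgroup.subset_closure (Or.inl ⟨v, hv, rfl⟩), hgv v hv⟩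
      | zero => exact ⟨1, Subgroup.one_mem _, rfl⟩
      | add a b _ _ ha hb =>
        obtain ⟨p, hp, rfl⟩ := ha
        obtain ⟨q, hq, rfl⟩ := hb
        exact ⟨p * q, Subgroup.mul_mem _ hp hq, rfl⟩
      | neg a _ ha =>
        obtain ⟨p, hp, rfl⟩ := ha
        exact ⟨p⁻¹, Subgroup.inv_mem _ hp, rfl⟩
    have h2 : ∀ c ∈ AddSubgroup.closure (T : Set (C × ℤ)),
        (⟨c.1.1, c.2, 0⟩ : QW I) ∈ Subgroup.closure U := by
      intro c hc
      induction hc using AddSubgroup.closure_induction with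
      | mem c hc => exact Subgroup.subset_closure (Or.inr ⟨c, hc, rfl⟩)
      | zero => exact Subgroup.one_mem _
      | add a b _ _ ha hb =>
        have := Subgroup.mul_mem _ ha hb
        have h2 : ((⟨a.1.1, a.2, 0⟩ : QW I) * ⟨b.1.1, b.2, 0⟩) = ⟨(a + b).1.1, (a + b).2, 0⟩ := by
          apply QW.ext
          · funext j; simp
          · simp
          · simp
        rwa [h2] at this
      | neg a _ ha =>
        have := Subgroup.inv_mem _ ha
        have h2 : ((⟨a.1.1, a.2, 0⟩ : QW I)⁻¹) = ⟨(-a).1.1, (-a).2, 0⟩ := by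
          apply QW.ext
          · funext j; simp
          · simp
          · simp
        rwa [h2] at this
    intro p hp
    obtain ⟨p', hp', hv⟩ := h1 p.v (by rw [hS]; exact ⟨p, hp, rfl⟩)
    have hUK : Subgroup.closure U ≤ K := by
      rw [Subgroup.closure_le]
      rintro _ (⟨v, hv, rfl⟩ | ⟨c, hc, rfl⟩)
      · exact hgK v hv
      · have : c ∈ N := by rw [← hT]; exact AddSubgroup.subset_closure hc
        exact this
    have h3 : p * p'⁻¹ ∈ K := K.mul_mem hp (K.inv_mem (hUK hp'))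
    have h4 : (p * p'⁻¹).v = 0 := by simp [hv]
    have h5 : (p * p'⁻¹).f ∈ C := hK h3
    have h6 : ((⟨⟨(p * p'⁻¹).f, h5⟩, (p * p'⁻¹).k⟩ : C × ℤ)) ∈ N := by
      show (⟨(p * p'⁻¹).f, (p * p'⁻¹).k, 0⟩ : QW I) ∈ K
      rw [← h4]
      exact h3
    rw [← hT] at h6
    have h7 := h2 _ h6
    have h8 : (⟨(p * p'⁻¹).f, (p * p'⁻¹).k, 0⟩ : QW I) = p * p'⁻¹ := by
      rw [← h4]
    have h9 : p * p'⁻¹ ∈ Subgroup.closure U := by
      rw [← h8]; exact h7
    have := Subgroup.mul_mem _ h9 hp'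
    simpa using this

/-- projection to translations -/
def vhom : QW I →* Multiplicative (I → ℤ) where
  toFun q := Multiplicative.ofAdd q.v
  map_one' := rfl
  map_mul' _ _ := rfl

theorem QW_solvable : Group.IsSolvable (QW I) := by
  have hk : Group.IsSolvable (vhom (I := I)).ker := by
    apply Group.isSolvable_of_comm
    rintro ⟨a, ha⟩ ⟨b, hb⟩
    have ha' : a.v = 0 := ha
    have hb' : b.v = 0 := hb
    apply Subtype.ext
    show a * b = b * a
    apply QW.ext
    · funext j; simp [ha', hb', add_comm]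
    · simp [add_comm]
    · simp [add_comm]
  exact Group.isSolvable_of_ker_le_range (vhom (I := I)).ker.subtype (vhom (I := I)) (by simp)

end Pool.Agent.Lib.MP_689b4c_al
end

section

/-!
The main theorem: undecidable conjugacy problem.
-/

namespace Pool.Agent.Lib.MP_689b4c_al

open Nat.Partrec (Code)
open Encodable Denumerable Fin2

theorem eqvGen_rel_iff {I : Type} {x y : I} {P : (I → ℤ) → ℤ}
    (hP : ∀ a b : ℤ, Rel x y P a b ↔ (a = b ∨ ∃ m n : ℕ, a = m ∧ b = n ∧ Step m n)) (m n : ℕ) :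
    Relation.EqvGen (Rel x y P) (m : ℤ) (n : ℤ) ↔ Conn m n := by
  constructor
  · intro h
    have key : ∀ a b : ℤ, Relation.EqvGen (Rel x y P) a b →
        (a = b ∨ ∃ m n : ℕ, a = m ∧ b = n ∧ Conn m n) := by
      intro a b h
      induction h with
      | rel a b h =>
        rcases (hP a b).1 h with h | ⟨m, n, ha, hb, h⟩
        · exact Or.inl h
        · exact Or.inr ⟨m, n, ha, hb, Conn.of_step h⟩
      | refl a => exact Or.inl rfl
      | symm a b _ ih =>
        rcases ih with h | ⟨m, n, ha, hb, h⟩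
        · exact Or.inl h.symm
        · exact Or.inr ⟨n, m, hb, ha, Relation.EqvGen.symm _ _ h⟩
      | trans a b c _ _ ih1 ih2 =>
        rcases ih1 with rfl | ⟨m, n, ha, hb, h⟩
        · exact ih2
        · rcases ih2 with rfl | ⟨m', n', ha', hb', h'⟩
          · exact Or.inr ⟨m, n, ha, hb, h⟩
          · have : n = m' := by
              have := hb.symm.trans ha'
              exact_mod_cast this
            subst this
            exact Or.inr ⟨m, n', ha, hb', h.trans h'⟩
    rcases key _ _ h with h | ⟨m', n', hm, hn, h⟩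
    · have : m = n := by exact_mod_cast h
      subst this
      exact Relation.EqvGen.refl _
    · have h1 : m = m' := by exact_mod_cast hm
      have h2 : n = n' := by exact_mod_cast hn
      subst h1; subst h2
      exact h
  · intro h
    induction h with
    | rel a b h => exact Relation.EqvGen.rel _ _ ((hP _ _).2 (Or.inr ⟨a, b, rfl, rfl, h⟩))
    | refl a => exact Relation.EqvGen.refl _
    | symm a b _ ih => exact Relation.EqvGen.symm _ _ ih
    | trans a b c _ _ ih1 ih2 => exact Relation.EqvGen.trans _ _ _ ih1 ih2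

theorem primrec_replicate {α : Type*} [Primcodable α] (c : α) :
    Primrec fun n : ℕ => List.replicate n c := by
  have h : Primrec fun n : ℕ => (List.range n).map (fun _ => c) :=
    Primrec.list_map Primrec.list_range (Primrec.const c).to₂
  refine h.of_eq fun n => ?_
  simp [List.map_const']

theorem qel_tr_pow {I : Type} [DecidableEq I] {x y : I} (n : ℕ) :
    (qel x y (tr (Pi.single x 1))) ^ n = qel x y (tr (Pi.single x (n : ℤ))) := by
  induction n with
  | zero => simp [tr_zero]; rfl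
  | succ n ih =>
    rw [pow_succ, ih, ← qel_mul, ← tr_add, ← Pi.single_add]
    simp

theorem mk_replicate_true {α : Type*} (i : α) (n : ℕ) :
    FreeGroup.mk (List.replicate n (i, true)) = FreeGroup.of i ^ n := by
  induction n with
  | zero => rfl
  | succ n ih =>
    rw [List.replicate_succ', ← FreeGroup.mul_mk, ih, pow_succ]; rfl

theorem mk_replicate_false {α : Type*} (i : α) (n : ℕ) :
    FreeGroup.mk (List.replicate n (i, false)) = (FreeGroup.of i ^ n)⁻¹ := by
  induction n with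
  | zero => rfl
  | succ n ih =>
    rw [List.replicate_succ', ← FreeGroup.mul_mk, ih, pow_succ', mul_inv_rev]; rfl

theorem computablePred_comp {α β : Type*} [Primcodable α] [Primcodable β] {p : β → Prop}
    (hp : ComputablePred p) {f : α → β} (hf : Computable f) : ComputablePred fun a => p (f a) := by
  obtain ⟨h, hc⟩ := hp
  exact ⟨fun a => h (f a), hc.comp hf⟩

/-- Main theorem. -/
theorem main :
    ¬ (∀ (G : Type) [Group G] (A : Subgroup G) [A.Normal],
      (∀ x ∈ A, ∀ y ∈ A, x * y = y * x) →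
      Group.IsSolvable (G ⧸ A) →
      (∀ H : Subgroup (G ⧸ A), H.FG) →
      ∀ (n : ℕ) (f : FreeGroup (Fin n) →* G), Function.Surjective f →
        ComputablePred (fun p : List (Fin n × Bool) × List (Fin n × Bool) =>
          IsConj (f (FreeGroup.mk p.1)) (f (FreeGroup.mk p.2)))) := by
  intro H
  obtain ⟨I, hI, hd, x, y, P, hP⟩ := exists_guard Step step_dioph
  set Pf : (I → ℤ) → ℤ := fun j => MvPolynomial.eval j P with hPf
  have hRel : ∀ a b : ℤ, Rel x y Pf a b ↔ (a = b ∨ ∃ m n : ℕ, a = m ∧ b = n ∧ Step m n) := hP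
  have hrefl : ∀ a, Rel x y Pf a a := fun a => (hRel a a).2 (Or.inl rfl)
  obtain ⟨C, hCfg, hC, hPC⟩ := exists_trInv P
  -- generators
  let T := I ⊕ Fin 3
  let e : T ≃ Fin (Fintype.card T) := Fintype.equivFin T
  let gen : T → W x y := Sum.elim (fun i => qel x y (tr (Pi.single i 1)))
    ![mel x y (bB 0 0), mel x y (e1 0), qel x y (q0 Pf)]
  let F : FreeGroup (Fin (Fintype.card T)) →* W x y := FreeGroup.lift (gen ∘ e.symm)
  have hF : ∀ t : T, F (FreeGroup.of (e t)) = gen t := by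
    intro t
    simp [F, FreeGroup.lift_apply_of]
  let G := F.range
  have hgenG : ∀ t : T, gen t ∈ G := fun t => ⟨_, hF t⟩
  let π : G →* QW I := W.proj.comp G.subtype
  let A : Subgroup G := π.ker
  have hGC : ∀ g : G, π g ∈ QC C hC := by
    have h1 : G ≤ (QC C hC).comap W.proj := by
      apply FreeGroup.range_lift_le
      rintro _ ⟨t, rfl⟩
      show W.proj (gen (e.symm t)) ∈ QC C hC
      rcases e.symm t with i | k
      · exact C.zero_mem
      · fin_cases k
        · exact C.zero_mem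
        · exact C.zero_mem
        · exact hPC
    intro g
    exact h1 g.2
  have hinj : Function.Injective (QuotientGroup.kerLift π) := QuotientGroup.kerLift_injective π
  have hsolv : Group.IsSolvable (G ⧸ A) := by
    have := QW_solvable (I := I)
    exact Group.isSolvable_of_isSolvable_injective hinj
  have hfg : ∀ K : Subgroup (G ⧸ A), K.FG := by
    intro K
    have h1 : (K.map (QuotientGroup.kerLift π)).FG := by
      refine subgroup_QC_fg hC hCfg _ ?_
      rintro _ ⟨k, _, rfl⟩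
      obtain ⟨g, rfl⟩ := QuotientGroup.mk_surjective k
      exact hGC g
    rw [← Group.fg_iff_subgroup_fg] at h1 ⊢
    exact Group.fg_of_surjective
      (f := ((K.equivMapOfInjective (QuotientGroup.kerLift π) hinj).symm.toMonoidHom))
      (K.equivMapOfInjective (QuotientGroup.kerLift π) hinj).symm.surjective
  have hab : ∀ u ∈ A, ∀ v ∈ A, u * v = v * u := by
    intro u hu v hv
    have hu' : (u : W x y).q = 1 := hu
    have hv' : (v : W x y).q = 1 := hv
    apply Subtype.ext
    simp only [Subgroup.coe_mul]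
    apply W.ext
    · simp [hu', hv', act_one, add_comm]
    · simp [hu', hv']
  have hcomp := H G A hab hsolv hfg (Fintype.card T) F.rangeRestrict F.rangeRestrict_surjective
  -- the words
  let ix : Fin (Fintype.card T) := e (Sum.inl x)
  let iE : Fin (Fintype.card T) := e (Sum.inr 1)
  let iq : Fin (Fintype.card T) := e (Sum.inr 2)
  let word : ℕ → List (Fin (Fintype.card T) × Bool) := fun a =>
    List.replicate a (ix, true) ++ ([(iE, true)] ++ (List.replicate a (ix, false) ++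
      (List.replicate hlt (ix, true) ++ ([(iE, false)] ++
        (List.replicate hlt (ix, false) ++ [(iq, true)])))))
  have hword : ∀ a : ℕ, F (FreeGroup.mk (word a)) = mel x y (e1 a - e1 hlt) * qel x y (q0 Pf) := by
    intro a
    simp only [word, ← FreeGroup.mul_mk, map_mul, mk_replicate_true, mk_replicate_false]
    have h1 : F (FreeGroup.mk [(iE, true)]) = mel x y (e1 0) := hF (Sum.inr 1)
    have h2 : F (FreeGroup.mk [(iE, false)]) = (mel x y (e1 0))⁻¹ := by
      have : (FreeGroup.mk [(iE, false)]) = (FreeGroup.of iE)⁻¹ := rfl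
      rw [this, map_inv]
      exact congrArg _ (hF (Sum.inr 1))
    have h3 : F (FreeGroup.mk [(iq, true)]) = qel x y (q0 Pf) := hF (Sum.inr 2)
    have h4 : F (FreeGroup.of ix) = qel x y (tr (Pi.single x 1)) := hF (Sum.inl x)
    rw [map_inv, map_inv, map_pow, map_pow, h1, h2, h3, h4, qel_tr_pow, qel_tr_pow]
    have h5 : ∀ n : ℕ, act x y (tr (Pi.single x (n : ℤ))) (e1 0) = e1 (n : ℤ) := by
      intro n; simp
    have h6 := qel_conj (x := x) (y := y) (tr (Pi.single x (a : ℤ))) (e1 0)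
    have h7 := qel_conj (x := x) (y := y) (tr (Pi.single x (hlt : ℤ))) (e1 0)
    rw [h5] at h6 h7
    rw [sub_eq_add_neg, mel_add, mel_neg, ← h6, ← h7]
    group
  have hV : F (FreeGroup.mk [(iq, true)]) = qel x y (q0 Pf) := hF (Sum.inr 2)
  have hiff : ∀ c : Code, IsConj (F.rangeRestrict (FreeGroup.mk (word (start c 0))))
      (F.rangeRestrict (FreeGroup.mk [(iq, true)])) ↔ (c.eval 0).Dom := by
    intro c
    rw [← conn_start_iff, ← eqvGen_rel_iff hRel]
    refine isConj_iff_conn Pf hrefl G (fun i => hgenG (Sum.inl i)) (hgenG (Sum.inr 0)) _ _ ?_ ?_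
    · exact hword _
    · exact hV
  have hr : Computable fun c : Code => ((word (start c 0)), [(iq, true)]) := by
    have h1 : Primrec fun c : Code => start c 0 := by
      unfold start nrm
      exact Primrec₂.natPair.comp (Primrec.const 0)
        (Primrec₂.natPair.comp Primrec.encode (Primrec.const _))
    have h2 : Primrec word := by
      refine Primrec.list_append.comp (primrec_replicate _) ?_
      refine Primrec.list_append.comp (Primrec.const _) ?_
      exact Primrec.list_append.comp (primrec_replicate _) (Primrec.const _)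
    exact (Primrec.pair (h2.comp h1) (Primrec.const _)).to_comp
  have h3 := computablePred_comp hcomp hr
  exact ComputablePred.halting_problem 0 (h3.of_eq hiff)

end Pool.Agent.Lib.MP_689b4c_al
end
end
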